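import Pool.Agent.MP_c1891a_nt.H43.Spec4

/-
The primitive part of a Laurent polynomial with algebraic coefficients.
-/

namespace Pool.Agent.MP_c1891a_nt.H43

open Finset NumberField

theorem prim_le (O : ValuationSubring ℂ) {x : ℂ} (h : IsIntegral ℤ x) : O.valuation x ≤ 1 := by
  obtain ⟨y, rfl⟩ := (IsIntegrallyClosedIn.isIntegral_iff (R := O)).1 (h.tower_top (A := O))
  exact (O.valuation_le_one_iff _).2 y.2

theorem prim_int {x : ℂ} (h : ∀ O : ValuationSubring ℂ, O.valuation x ≤ 1) : IsIntegral ℤ x := by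
  by_contra hx
  have : IsIntegrallyClosedIn (integralClosure ℤ ℂ).toSubring ℂ :=
    inferInstanceAs (IsIntegrallyClosedIn (integralClosure ℤ ℂ) ℂ)
  obtain ⟨V, -, hV⟩ := Subring.exists_le_valuationSubring_of_isIntegrallyClosedIn
    (R := (integralClosure ℤ ℂ).toSubring) (x := x) hx
  exact hV ((V.valuation_le_one_iff _).1 (h V))

theorem prim_gauss {Γ : Type} [LinearOrderedCommGroupWithZero Γ] (v : Valuation ℂ Γ) (P S : LC)
    (μ ν : ℤ × ℤ) : ∃ m, v (P.coeff μ) * v (S.coeff ν) ≤ v ((P * S).coeff m) := by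
  classical
  by_cases hμ : P.coeff μ = 0
  · exact ⟨0, by simp [hμ]⟩
  by_cases hν : S.coeff ν = 0
  · exact ⟨0, by simp [hν]⟩
  have hμ' := Finsupp.mem_support_iff.2 hμ
  have hν' := Finsupp.mem_support_iff.2 hν
  obtain ⟨a, ha, hA⟩ := exists_max_image P.coeff.support (fun i => v (P.coeff i)) ⟨μ, hμ'⟩
  obtain ⟨b, hb, hB⟩ := exists_max_image S.coeff.support (fun i => v (S.coeff i)) ⟨ν, hν'⟩
  obtain ⟨a0, ha0, b0, hb0, hu⟩ := UniqueSums.uniqueAdd_of_nonempty
    (A := P.coeff.support.filter fun i => v (P.coeff i) = v (P.coeff a))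
    (B := S.coeff.support.filter fun i => v (S.coeff i) = v (S.coeff b))
    ⟨a, mem_filter.2 ⟨ha, rfl⟩⟩ ⟨b, mem_filter.2 ⟨hb, rfl⟩⟩
  obtain ⟨ha1, ha2⟩ := mem_filter.1 ha0
  obtain ⟨hb1, hb2⟩ := mem_filter.1 hb0
  have pa : 0 < v (P.coeff a) := zero_lt_iff.2 (v.ne_zero_iff.2 (Finsupp.mem_support_iff.1 ha))
  have pb : 0 < v (S.coeff b) := zero_lt_iff.2 (v.ne_zero_iff.2 (Finsupp.mem_support_iff.1 hb))
  refine ⟨a0 + b0, (mul_le_mul' (hA μ hμ') (hB ν hν')).trans (le_of_eq (Eq.symm ?_))⟩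
  have e : (P * S).coeff (a0 + b0) = ∑ p ∈ P.coeff.support ×ˢ S.coeff.support,
      if p.1 + p.2 = a0 + b0 then P.coeff p.1 * S.coeff p.2 else 0 := by
    rw [AddMonoidAlgebra.coeff_mul, sum_product]; rfl
  have hm : (a0, b0) ∈ P.coeff.support ×ˢ S.coeff.support := mem_product.2 ⟨ha1, hb1⟩
  rw [e, ← add_sum_erase _ _ hm, if_pos rfl, v.map_add_eq_of_lt_left, map_mul, ha2, hb2]
  rw [map_mul, ha2, hb2]
  refine v.map_sum_lt' (mul_pos pa pb) fun p hp => ?_
  obtain ⟨hne, hp'⟩ := mem_erase.1 hp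
  obtain ⟨p1, p2⟩ := mem_product.1 hp'
  split_ifs with h
  · rw [map_mul]
    rcases (hA _ p1).lt_or_eq with h1 | h1
    · exact mul_lt_mul_of_lt_of_le_of_nonneg_of_pos h1 (hB _ p2) zero_le pb
    · rcases (hB _ p2).lt_or_eq with h2 | h2
      · rw [h1]; exact mul_lt_mul_of_pos_left h2 pa
      · have := hu (mem_filter.2 ⟨p1, h1⟩) (mem_filter.2 ⟨p2, h2⟩) h
        exact absurd (Prod.ext this.1 this.2) hne
  · rw [map_zero]; exact mul_pos pa pb

theorem prim_pow {K : Type} [Field K] [NumberField K] (g : 𝓞 K →+* ℂ)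
    (hg : ∀ r, IsIntegral ℤ (g r)) (O : ValuationSubring ℂ) (s : Set (𝓞 K)) {γ : O.ValueGroup}
    (h : ∀ y ∈ s, O.valuation (g y) ≤ γ) (n : ℕ) :
    ∀ z ∈ Ideal.span s ^ n, O.valuation (g z) ≤ γ ^ n := by
  have h1 : ∀ z ∈ Ideal.span s, O.valuation (g z) ≤ γ := by
    intro z hz
    induction hz using Submodule.span_induction with
    | mem x hx => exact h x hx
    | zero => simp
    | add x y _ _ hx hy => rw [map_add]; exact O.valuation.map_add_le hx hy
    | smul c x _ hx =>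
      rw [smul_eq_mul, map_mul, map_mul]
      exact (mul_le_mul' (prim_le O (hg c)) hx).trans_eq (one_mul _)
  induction n with
  | zero => intro z _; rw [pow_zero]; exact prim_le O (hg z)
  | succ n ih =>
    intro z hz
    rw [pow_succ] at hz ⊢
    refine Submodule.mul_induction_on hz (fun x hx y hy => ?_) fun x y hx hy => ?_
    · rw [map_mul, map_mul]; exact mul_le_mul' (ih x hx) (h1 y hy)
    · rw [map_add]; exact O.valuation.map_add_le hx hy

theorem prim_content {ι : Type} (S : Finset ι) (x : ι → ℂ) (hx : ∀ i ∈ S, IsAlgebraic ℚ (x i))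
    {i0 : ι} (hi0 : i0 ∈ S) (h0 : x i0 ≠ 0) : ∃ c : ℂ, c ≠ 0 ∧ (∀ i ∈ S, IsIntegral ℤ (c * x i)) ∧
      ∀ O : ValuationSubring ℂ, ∃ i ∈ S, 1 ≤ O.valuation (c * x i) := by
  classical
  obtain ⟨K, _, _, ι₀, c', hc'⟩ := num_field S x hx
  obtain ⟨d, hd, hdi⟩ := exists_integral_multiples ℤ ℚ (S.image c')
  let y : S → 𝓞 K := fun i => ⟨d • c' i, hdi _ (mem_image_of_mem _ i.2)⟩
  let g : 𝓞 K →+* ℂ := ι₀.comp (algebraMap (𝓞 K) K)
  have hg : ∀ r, IsIntegral ℤ (g r) := fun r => (int_map ι₀).2 r.2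
  have hgi : Function.Injective g := ι₀.injective.comp RingOfIntegers.coe_injective
  have hy : ∀ i : S, g (y i) = d * x i := fun i => by
    show ι₀ (d • c' i) = _
    rw [zsmul_eq_mul, map_mul, map_intCast, hc' i i.2]
  have hd' : (d : ℂ) ≠ 0 := Int.cast_ne_zero.2 hd
  set I : Ideal (𝓞 K) := Ideal.span (Set.range y) with hI
  have hI0 : I ≠ 0 := by
    intro h
    have : y ⟨i0, hi0⟩ ∈ I := Ideal.subset_span ⟨_, rfl⟩
    rw [h] at this
    have h1 := hy ⟨i0, hi0⟩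
    rw [(Submodule.mem_bot _).1 this, map_zero] at h1
    exact mul_ne_zero hd' h0 h1.symm
  have hn : 0 < Fintype.card (ClassGroup (𝓞 K)) := Fintype.card_pos
  have hp : (I ^ Fintype.card (ClassGroup (𝓞 K))).IsPrincipal := by
    rw [← ClassGroup.mk0_eq_one_iff (pow_mem (mem_nonZeroDivisors_of_ne_zero hI0) _),
      ← SubmonoidClass.mk_pow _ (mem_nonZeroDivisors_of_ne_zero hI0), map_pow, pow_card_eq_one]
  generalize Fintype.card (ClassGroup (𝓞 K)) = n at hn hp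
  obtain ⟨a, ha⟩ := hp
  have ha0 : g a ≠ 0 := by
    rw [map_ne_zero_iff g hgi]
    rintro rfl
    exact pow_ne_zero n hI0 (by rw [ha]; simp)
  obtain ⟨b, hb⟩ := IsAlgClosed.exists_pow_nat_eq (g a) hn
  have hb0 : b ≠ 0 := by
    rintro rfl
    exact ha0 (by rw [← hb, zero_pow hn.ne'])
  refine ⟨b⁻¹ * d, mul_ne_zero (inv_ne_zero hb0) hd', fun i hi => ?_, fun O => ?_⟩
  · have h1 : y ⟨i, hi⟩ ^ n ∈ I ^ n := 
      Ideal.pow_mem_pow (Ideal.subset_span (Set.mem_range_self _)) n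
    rw [ha] at h1
    obtain ⟨r, hr⟩ := Submodule.mem_span_singleton.1 h1
    have h2 := congrArg g hr
    rw [smul_eq_mul, map_mul, map_pow, hy] at h2
    refine IsIntegral.of_pow hn ?_
    rw [mul_assoc, mul_pow, ← h2, inv_pow, hb, mul_comm, mul_inv_cancel_right₀ ha0]
    exact hg r
  · obtain ⟨i, hi, hm⟩ := exists_max_image S (fun i => O.valuation (d * x i)) ⟨i0, hi0⟩
    refine ⟨i, hi, ?_⟩
    have h1 := prim_pow g hg O (Set.range y) (γ := O.valuation (d * x i))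
      (by rintro _ ⟨j, rfl⟩; rw [hy]; exact hm j j.2) n a
      (by rw [← hI, ha]; exact Submodule.mem_span_singleton_self a)
    rw [← hb, map_pow] at h1
    have h2 := (pow_le_pow_iff_left₀ zero_le zero_le hn.ne').1 h1
    rw [mul_assoc, map_mul, map_inv₀]
    exact (one_le_inv_mul₀ (zero_lt_iff.2 (O.valuation.ne_zero_iff.2 hb0))).2 h2

theorem sPrim : SPrim := by
  intro P hP h0
  have hc : P.coeff ≠ 0 := fun h => h0 (AddMonoidAlgebra.coeff_injective (by simpa using h))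
  obtain ⟨μ0, hμ0⟩ := Finsupp.support_nonempty_iff.2 hc
  obtain ⟨c, hc0, h1, h2⟩ := prim_content P.coeff.support P.coeff (fun μ _ => hP μ) hμ0
    (Finsupp.mem_support_iff.1 hμ0)
  refine ⟨c, hc0, fun μ => ?_, fun S hS ν => prim_int fun O => ?_⟩
  · by_cases h : μ ∈ P.coeff.support
    · exact h1 μ h
    · rw [Finsupp.notMem_support_iff.1 h, mul_zero]; exact isIntegral_zero
  · obtain ⟨μ, -, hμ⟩ := h2 O
    obtain ⟨m, hm⟩ := prim_gauss O.valuation P S μ ν
    calc O.valuation (c⁻¹ * S.coeff ν)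
        ≤ O.valuation (c * P.coeff μ) * O.valuation (c⁻¹ * S.coeff ν) :=
          le_mul_of_one_le_left' hμ
      _ = O.valuation (P.coeff μ) * O.valuation (S.coeff ν) := by
          rw [← map_mul, ← map_mul, mul_mul_mul_comm, mul_inv_cancel₀ hc0, one_mul]
      _ ≤ 1 := hm.trans (prim_le O (hS m))

end Pool.Agent.MP_c1891a_nt.H43
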