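import Pool.Agent.MP_c1891a_nt.H43.Spec3
import Pool.Agent.MP_c1891a_nt.H85.Arith

/-
An integral sum of roots of unity with a coefficient that is not integral is degenerate.
-/

namespace Pool.Agent.MP_c1891a_nt.H43

open Finset Polynomial Module

theorem na_tot (m : ℕ) : ∃ N₀ : ℕ, ∀ n, N₀ ≤ n → 2 ≤ n ∧ m ≤ n.totient := by
  obtain ⟨N₀, h⟩ := sArith (1 / 2) (by norm_num)
  refine ⟨N₀ + m ^ 2 + 2, fun n hn => ⟨by omega, ?_⟩⟩
  have h1 := (h n (by omega)).1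
  rw [show (1 : ℝ) - 1 / 2 = 1 / 2 by norm_num, ← Real.sqrt_eq_rpow] at h1
  have h2 : (m : ℝ) ≤ √(n : ℝ) := Real.le_sqrt_of_sq_le (by exact_mod_cast (by omega : m ^ 2 ≤ n))
  exact_mod_cast h2.trans h1

theorem na_int {x : ℂ} (h : Tor x) : IsIntegral ℤ x ∧ IsIntegral ℤ x⁻¹ ∧ x ≠ 0 := by
  obtain ⟨n, hn, e⟩ := h
  refine ⟨by simpa using int_zpow hn e 1, by simpa using int_zpow hn e (-1), ?_⟩
  rintro rfl
  rw [zero_pow hn.ne'] at e
  exact zero_ne_one e

theorem na_cyc {ω : ℂ} {n m : ℕ} (h : IsPrimitiveRoot ω n) (hn : 2 ≤ n) (hm : m ≤ n.totient) :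
    ∃ q : ℕ, (q = 1 ∨ q.Prime) ∧ ∃ u : ℂ, IsIntegral ℤ u ∧ (q : ℂ) = (1 - ω) ^ m * u := by
  have : NeZero n := ⟨by omega⟩
  have hω := (na_int ⟨n, by omega, h.pow_eq_one⟩).1
  have h1 : ∀ μ ∈ primitiveRoots n ℂ, ∃ g : ℂ, IsIntegral ℤ g ∧ 1 - μ = (1 - ω) * g := by
    intro μ hμ
    obtain ⟨j, -, rfl⟩ := h.eq_pow_of_pow_eq_one
      ((mem_primitiveRoots (by omega)).1 hμ).pow_eq_one
    exact ⟨∑ i ∈ range j, ω ^ i, IsIntegral.sum _ fun i _ => hω.pow i,
      (mul_neg_geom_sum ω j).symm⟩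
  choose! g hg e using h1
  have h2 : eval 1 (cyclotomic n ℂ) = (1 - ω) ^ m *
      ((1 - ω) ^ (n.totient - m) * ∏ μ ∈ primitiveRoots n ℂ, g μ) := by
    rw [cyclotomic_eq_prod_X_sub_primitiveRoots h, eval_prod, ← mul_assoc, ← pow_add,
      Nat.add_sub_cancel' hm, ← h.card_primitiveRoots, ← prod_const, ← prod_mul_distrib]
    exact prod_congr rfl fun μ hμ => by rw [eval_sub, eval_X, eval_C, e μ hμ]
  have h3 : IsIntegral ℤ ((1 - ω) ^ (n.totient - m) * ∏ μ ∈ primitiveRoots n ℂ, g μ) :=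
    ((isIntegral_one.sub hω).pow _).mul (IsIntegral.prod _ hg)
  by_cases hp : ∃ p : ℕ, p.Prime ∧ ∃ k, p ^ k = n
  · obtain ⟨p, hp, k, rfl⟩ := hp
    have : Fact p.Prime := ⟨hp⟩
    obtain ⟨k, rfl⟩ : ∃ j, k = j + 1 := ⟨k - 1, by
      rcases k with _ | k
      · simp at hn
      · rfl⟩
    exact ⟨p, Or.inr hp, _, h3, by rw [← h2, eval_one_cyclotomic_prime_pow]⟩
  · refine ⟨1, Or.inl rfl, _, h3, ?_⟩
    rw [← h2, eval_one_cyclotomic_not_prime_pow fun hq k e => hp ⟨_, hq, k, e⟩, Nat.cast_one]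

theorem na_of_eq {x y : ℂ} (h : IsIntegral ℤ x) (e : x = y) : IsIntegral ℤ y := e ▸ h

theorem na_intc (a : ℤ) : IsIntegral ℤ (a : ℂ) := isIntegral_algebraMap (R := ℤ) (x := a)

theorem na_gcd1 {D : ℤ} {m q : ℕ} (hq : q = 1 ∨ q.Prime) {x : ℂ} (h1 : IsIntegral ℤ (q * x))
    (h2 : IsIntegral ℤ ((D : ℂ) ^ m * x)) : IsIntegral ℤ (D * x) := by
  rcases hq with rfl | hq
  · rw [Nat.cast_one, one_mul] at h1
    exact (na_intc D).mul h1
  · rcases (Nat.prime_iff_prime_int.1 hq).irreducible.isCoprime_or_dvd D with h | ⟨e, rfl⟩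
    · obtain ⟨u, v, e⟩ := h.pow_right (n := m)
      have e' : (u : ℂ) * q + v * (D : ℂ) ^ m = 1 := by exact_mod_cast congrArg (Int.cast : ℤ → ℂ) e
      have : x = u * (q * x) + v * ((D : ℂ) ^ m * x) := by linear_combination (-x) * e'
      rw [this]
      exact (na_intc D).mul (((na_intc u).mul h1).add ((na_intc v).mul h2))
    · have := (na_intc e).mul h1
      rwa [show (e : ℂ) * (q * x) = ((q * e : ℤ) : ℂ) * x by push_cast; ring] at this

theorem na_gcd {ι : Type} {D : ℤ} {m : ℕ} (T : Finset ι) (q : ι → ℕ)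
    (hq : ∀ k ∈ T, q k = 1 ∨ (q k).Prime) (x : ℂ)
    (h1 : IsIntegral ℤ ((∏ k ∈ T, (q k : ℂ)) * x)) (h2 : IsIntegral ℤ ((D : ℂ) ^ m * x)) :
    IsIntegral ℤ ((D : ℂ) ^ T.card * x) := by
  classical
  induction T using Finset.induction_on generalizing x with
  | empty => simpa using h1
  | insert k T hk ih =>
    rw [prod_insert hk, mul_assoc] at h1
    have h3 : IsIntegral ℤ (∏ k ∈ T, (q k : ℂ)) :=
      IsIntegral.prod _ fun i _ => by simpa using na_intc (q i)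
    have h4 := na_gcd1 (D := D) (m := m) (hq k (mem_insert_self _ _)) h1
      (by rw [mul_left_comm]; exact h3.mul h2)
    rw [card_insert_of_notMem hk, pow_succ, mul_assoc]
    exact ih (fun i hi => hq i (mem_insert_of_mem hi)) _ (by rwa [mul_left_comm])
      (by rw [mul_left_comm]; exact (na_intc D).mul h2)

theorem na_elim {ι : Type} (S : Finset ι) (g z : ι → ℂ) (s : ℕ)
    (h : ∀ t < s, IsIntegral ℤ (∑ i ∈ S, g i * z i ^ t)) (T : Finset ι)
    (hz : ∀ k ∈ T, IsIntegral ℤ (z k)) (t : ℕ) (ht : t + T.card < s) :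
    IsIntegral ℤ (∑ i ∈ S, g i * z i ^ t * ∏ k ∈ T, (z i - z k)) := by
  classical
  induction T using Finset.induction_on generalizing t with
  | empty => simpa using h t (by simpa using ht)
  | insert k T hk ih =>
    rw [card_insert_of_notMem hk] at ht
    have hz' := fun i hi => hz i (mem_insert_of_mem hi)
    have := (ih hz' (t + 1) (by omega)).sub
      ((hz k (mem_insert_self _ _)).mul (ih hz' t (by omega)))
    rw [mul_sum, ← sum_sub_distrib] at this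
    refine na_of_eq this (sum_congr rfl fun i _ => ?_)
    rw [prod_insert hk]; ring

theorem na_almost {K : Type} [Field K] [NumberField K] {a d : K} (hd : d ≠ 0)
    (h : ∀ m : ℕ, IsIntegral ℤ (d * a ^ m)) : IsIntegral ℤ a := by
  have hf : (integralClosure ℤ K).toSubmodule.FG :=
    Module.Finite.iff_fg.1 (inferInstanceAs (Module.Finite ℤ (NumberField.RingOfIntegers K)))
  refine isIntegral_of_smul_mem_submodule (Submodule.span ℤ (Set.range fun m : ℕ => d * a ^ m))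
    (fun h0 => hd ?_) (hf.of_le (Submodule.span_le.2 ?_)) a fun n hn => ?_
  · have : d * a ^ 0 ∈ Submodule.span ℤ (Set.range fun m : ℕ => d * a ^ m) :=
      Submodule.subset_span ⟨0, rfl⟩
    rw [h0] at this
    simpa using this
  · rintro _ ⟨m, rfl⟩
    exact h m
  · have : Submodule.span ℤ (Set.range fun m : ℕ => d * a ^ m) ≤
        (Submodule.span ℤ (Set.range fun m : ℕ => d * a ^ m)).comap (LinearMap.mulLeft ℤ a) := by
      refine Submodule.span_le.2 ?_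
      rintro _ ⟨m, rfl⟩
      exact Submodule.subset_span ⟨m + 1, show d * a ^ (m + 1) = a * (d * a ^ m) by ring⟩
    exact this hn

theorem na_cop {L N s t : ℕ} (hL : 0 < L) (hN : 0 < N) (hs : s.factorial ∣ L) (ht : t < s) :
    Nat.Coprime (1 + L ^ N.totient * (L - 1) + L * t) N := by
  refine Nat.coprime_of_dvd fun q hq h1 h2 => ?_
  have hφ := (Nat.totient_pos.2 hN).ne'
  by_cases hqL : q ∣ L
  · have h3 : q ∣ L ^ N.totient * (L - 1) + L * t :=
      dvd_add ((hqL.trans (dvd_pow_self L hφ)).mul_right _) (hqL.mul_right _)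
    rw [add_assoc] at h1
    exact hq.one_lt.ne' (Nat.dvd_one.1 ((Nat.dvd_add_left h3).1 h1))
  · obtain ⟨e, he⟩ := Nat.totient_dvd_of_dvd h2
    have h3 : L ^ N.totient ≡ 1 [MOD q] := by
      have := (Nat.ModEq.pow_totient ((Nat.Prime.coprime_iff_not_dvd hq).2 hqL).symm).pow e
      rwa [← pow_mul, ← he, one_pow] at this
    have h4 : 1 + L ^ N.totient * (L - 1) + L * t ≡ 1 + 1 * (L - 1) + L * t [MOD q] :=
      ((h3.mul_right _).add_left 1).add_right _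
    rw [show 1 + 1 * (L - 1) + L * t = L * (t + 1) by rw [mul_add]; omega] at h4
    have h5 : q ∣ L * (t + 1) := (Nat.modEq_zero_iff_dvd.1
      (h4.symm.trans (Nat.modEq_zero_iff_dvd.2 h1)))
    rcases (Nat.Prime.dvd_mul hq).1 h5 with h6 | h6
    · exact hqL h6
    · exact hqL ((h6.trans (Nat.dvd_factorial (by omega) (by omega))).trans hs)

theorem sNA (h : SGal) : SNA := by
  classical
  intro ι S c hc
  by_contra hcon
  rw [not_or] at hcon
  obtain ⟨hn, hB⟩ := hcon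
  refine hn fun i0 hi0 => ?_
  obtain ⟨K, _, _, ι₀, c', hc'⟩ := num_field S c hc
  obtain ⟨f, hf, hθ⟩ := h K ι₀
  obtain ⟨D, hD, hDa⟩ :=
    ((IsFractionRing.isAlgebraic_iff ℤ ℚ ℂ).2 (hc i0 hi0)).exists_integral_multiple
  rw [zsmul_eq_mul] at hDa
  rw [← hc' i0 hi0, int_map]
  refine na_almost (d := (D : K) ^ (S.erase i0).card) (pow_ne_zero _ (Int.cast_ne_zero.2 hD))
    fun m => ?_
  rw [← int_map ι₀, map_mul, map_pow, map_pow, map_intCast, hc' i0 hi0]
  obtain ⟨N₀, hN₀⟩ := na_tot m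
  set L := f * S.card.factorial with hLd
  have hL : 0 < L := Nat.mul_pos hf (Nat.factorial_pos _)
  simp only [not_exists, not_forall] at hB
  obtain ⟨w, hw, hI, hno⟩ := hB (L * N₀)
  -- a common order
  choose! n hn0 hn1 using hw
  set N := ∏ i ∈ S, n i with hNd
  have hN : 0 < N := prod_pos hn0
  have : NeZero N := ⟨hN.ne'⟩
  have hξ := Complex.isPrimitiveRoot_exp N hN.ne'
  set j0 := 1 + L ^ N.totient * (L - 1) with hj0
  have hS : ∀ t < S.card, IsIntegral ℤ (∑ i ∈ S, c i * w i ^ j0 * (w i ^ L) ^ t) := by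
    intro t ht
    have hm : j0 + L * t ≡ 1 [MOD Nat.gcd f N] := by
      have h1 : Nat.gcd f N ∣ L := (Nat.gcd_dvd_left _ _).mul_right _
      rw [hj0, add_assoc]
      exact (Nat.modEq_zero_iff_dvd.2 (dvd_add ((h1.trans (dvd_pow_self L
        (Nat.totient_pos.2 hN).ne')).mul_right _) (h1.mul_right _))).add_left 1
    obtain ⟨θ, h1, h2⟩ := hθ N _ (j0 + L * t) hN hξ (na_cop hL hN (Dvd.intro_left f rfl) ht) hm
    have h3 := (int_map θ.toRingHom).2 hI
    rw [map_sum] at h3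
    refine na_of_eq h3 (sum_congr rfl fun i hi => ?_)
    obtain ⟨e, he⟩ := dvd_prod_of_mem n hi
    obtain ⟨k, -, hk⟩ := hξ.eq_pow_of_pow_eq_one (ξ := w i)
      (by rw [hNd, he, pow_mul, hn1 i hi, one_pow])
    show θ (c i * w i) = _
    rw [map_mul, ← hc' i hi, h1, ← hk, map_pow, h2, pow_right_comm, pow_add, pow_mul,
      ← mul_assoc]
  have hwi : ∀ i ∈ S, IsIntegral ℤ (w i) ∧ IsIntegral ℤ (w i)⁻¹ ∧ w i ≠ 0 := fun i hi =>
    na_int ⟨n i, hn0 i hi, hn1 i hi⟩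
  have hE := na_elim S (fun i => c i * w i ^ j0) (fun i => w i ^ L) S.card hS (S.erase i0)
    (fun k hk => (hwi k (mem_of_mem_erase hk)).1.pow L) 0
    (by rw [zero_add]; exact card_erase_lt_of_mem hi0)
  rw [sum_eq_single_of_mem i0 hi0 fun i hi hne => by
    rw [prod_eq_zero (mem_erase.2 ⟨hne, hi⟩) (sub_self _), mul_zero]] at hE
  obtain ⟨-, hinv, h0⟩ := hwi i0 hi0
  have hP : IsIntegral ℤ (c i0 * ∏ k ∈ S.erase i0, (1 - (w k * (w i0)⁻¹) ^ L)) := by
    have := (hE.mul (hinv.pow j0)).mul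
      (IsIntegral.prod (s := S.erase i0) (fun _ => (w i0)⁻¹ ^ L) fun _ _ => hinv.pow L)
    have e1 : ∏ k ∈ S.erase i0, (1 - (w k * (w i0)⁻¹) ^ L) =
        (∏ k ∈ S.erase i0, (w i0 ^ L - w k ^ L)) * ∏ _k ∈ S.erase i0, (w i0)⁻¹ ^ L := by
      rw [← prod_mul_distrib]
      refine prod_congr rfl fun k _ => ?_
      rw [sub_mul, ← mul_pow, ← mul_pow, mul_inv_cancel₀ h0, one_pow]
    have e2 : w i0 ^ j0 * (w i0)⁻¹ ^ j0 = 1 := by rw [← mul_pow, mul_inv_cancel₀ h0, one_pow]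
    rw [e1]
    refine na_of_eq this ?_
    linear_combination (c i0 * (∏ k ∈ S.erase i0, (w i0 ^ L - w k ^ L)) *
      ∏ _k ∈ S.erase i0, (w i0)⁻¹ ^ L) * e2
  have hq : ∀ k ∈ S.erase i0, ∃ q : ℕ, (q = 1 ∨ q.Prime) ∧ ∃ u : ℂ, IsIntegral ℤ u ∧
      (q : ℂ) = (1 - (w k * (w i0)⁻¹) ^ L) ^ m * u := by
    intro k hk
    obtain ⟨hne, hkS⟩ := mem_erase.1 hk
    have hfin : IsOfFinOrder ((w k * (w i0)⁻¹) ^ L) := by
      refine isOfFinOrder_iff_pow_eq_one.2 ⟨n k * n i0, Nat.mul_pos (hn0 k hkS) (hn0 i0 hi0), ?_⟩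
      rw [pow_right_comm, mul_pow, pow_mul (w k), hn1 k hkS, pow_mul' (w i0)⁻¹, inv_pow,
        hn1 i0 hi0]
      simp
    have hle : N₀ ≤ orderOf ((w k * (w i0)⁻¹) ^ L) := by
      by_contra hlt
      have h1 := pow_orderOf_eq_one ((w k * (w i0)⁻¹) ^ L)
      rw [← pow_mul, mul_pow, inv_pow, mul_inv_eq_one₀ (pow_ne_zero _ h0)] at h1
      exact hno k ⟨hkS, i0, hi0, hne, _, Nat.mul_pos hL hfin.orderOf_pos,
        Nat.mul_le_mul_left _ (by omega), h1⟩
    exact na_cyc (IsPrimitiveRoot.orderOf _) (hN₀ _ hle).1 (hN₀ _ hle).2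
  choose! q hq1 u hu hqu using hq
  refine na_gcd (m := m) _ q hq1 _ ?_ (by rw [← mul_pow]; exact hDa.pow m)
  have := (hP.pow m).mul (IsIntegral.prod u hu)
  rw [prod_congr rfl hqu, prod_mul_distrib, prod_pow]
  refine na_of_eq this ?_
  ring

end Pool.Agent.MP_c1891a_nt.H43
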