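import Pool.Agent.MP_c1891a_nt.H43.Spec

/-
A reduced basis of the saturation of a rank two lattice.
-/

namespace Pool.Agent.MP_c1891a_nt.H43

open Finset

/-- the span of `v, w` contains `r₁, r₂`. -/
def redPair (r₁ r₂ v w : Fin 4 → ℤ) : Prop :=
  ∃ a₁ a₂ b₁ b₂ : ℤ, ∀ i, r₁ i = a₁ * v i + a₂ * w i ∧ r₂ i = b₁ * v i + b₂ * w i

lemma red_change {r₁ r₂ v w v' w' : Fin 4 → ℤ} (h : redPair r₁ r₂ v w) (x y z t : ℤ)
    (h1 : ∀ i, v i = x * v' i + y * w' i) (h2 : ∀ i, w i = z * v' i + t * w' i) :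
    redPair r₁ r₂ v' w' := by
  obtain ⟨a₁, a₂, b₁, b₂, h⟩ := h
  refine ⟨a₁ * x + a₂ * z, a₁ * y + a₂ * t, b₁ * x + b₂ * z, b₁ * y + b₂ * t, fun i => ?_⟩
  rw [(h i).1, (h i).2, h1, h2]
  constructor <;> ring

lemma red_prim {r₁ r₂ v w : Fin 4 → ℤ} {i j : Fin 4} (h : redPair r₁ r₂ v w)
    (h0 : v i * w j - v j * w i ≠ 0)
    (hm : ∀ v' w', redPair r₁ r₂ v' w' →
      (v i * w j - v j * w i).natAbs ≤ (v' i * w' j - v' j * w' i).natAbs) : Prim2 v w := by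
  intro m s t hd
  by_contra hn
  have hg : 0 < Int.gcd s t := by
    rcases Nat.eq_zero_or_pos (Int.gcd s t) with k | k
    · obtain ⟨rfl, rfl⟩ := Int.gcd_eq_zero_iff.1 k
      exact absurd ⟨dvd_zero m, dvd_zero m⟩ hn
    · exact k
  obtain ⟨g, s', t', -, hc, rfl, rfl⟩ := Int.exists_gcd_one' hg
  obtain ⟨x, y, hxy⟩ := Int.isCoprime_iff_gcd_eq_one.2 hc
  have hg2 : 0 < Int.gcd m g := by
    rcases Nat.eq_zero_or_pos (Int.gcd m g) with k | k
    · obtain ⟨-, k⟩ := Int.gcd_eq_zero_iff.1 k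
      rw [k] at hn
      exact absurd ⟨by simp, by simp⟩ hn
    · exact k
  obtain ⟨e, d, g', he, hc', hm', hg'⟩ := Int.exists_gcd_one' hg2
  have hd' : ∀ k, d ∣ s' * v k + t' * w k := by
    intro k
    have h1 := hd k
    rw [hm', hg', show s' * (g' * e) * v k + t' * (g' * e) * w k =
      g' * (s' * v k + t' * w k) * e by ring] at h1
    exact (Int.isCoprime_iff_gcd_eq_one.2 hc').dvd_of_dvd_mul_left
      (Int.dvd_of_mul_dvd_mul_right (by exact_mod_cast he.ne') h1)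
  choose u hu using hd'
  have hp : redPair r₁ r₂ u fun k => x * w k - y * v k :=
    red_change h (x * d) (-t') (y * d) s'
      (fun k => by linear_combination x * hu k - v k * hxy)
      (fun k => by linear_combination y * hu k - w k * hxy)
  have h1 := hm _ _ hp
  have h2 : v i * w j - v j * w i =
      d * (u i * (x * w j - y * v j) - u j * (x * w i - y * v i)) := by
    linear_combination (x * w j - y * v j) * hu i - (x * w i - y * v i) * hu j -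
      (v i * w j - v j * w i) * hxy
  rw [h2] at h0
  rw [h2, Int.natAbs_mul] at h1
  have h3 := Int.natAbs_pos.2 (right_ne_zero_of_mul h0)
  have h4 := Int.natAbs_pos.2 (left_ne_zero_of_mul h0)
  have h5 : d.natAbs = 1 := by
    by_contra h5
    have : 2 ≤ d.natAbs := by omega
    nlinarith
  have h6 : m ∣ g := by
    rw [hm', hg']
    exact mul_dvd_mul_right ((Int.isUnit_iff_natAbs_eq.2 h5).dvd) _
  exact hn ⟨h6.mul_left _, h6.mul_left _⟩

lemma red_bound {A B p a b R : ℤ} (h1 : 0 ≤ A + 2 * p) (h2 : 0 ≤ A - 2 * p) (h3 : 0 ≤ B + 2 * p)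
    (h4 : 0 ≤ B - 2 * p) (hR : a ^ 2 * A + 2 * a * b * p + b ^ 2 * B ≤ 4 * R) :
    a ^ 2 * A ≤ 8 * R ∧ b ^ 2 * B ≤ 8 * R := by
  have k1 : 0 ≤ a ^ 2 * A := mul_nonneg (sq_nonneg a) (by linarith)
  have k2 : 0 ≤ b ^ 2 * B := mul_nonneg (sq_nonneg b) (by linarith)
  have k3 : 0 ≤ a ^ 2 * A + 4 * a * b * p + b ^ 2 * B := by
    rcases le_total 0 p with h | h
    · have e1 := mul_nonneg (sq_nonneg a) h2
      have e2 := mul_nonneg (sq_nonneg b) h4
      have e3 := mul_nonneg h (sq_nonneg (a + b))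
      linarith
    · have e1 := mul_nonneg (sq_nonneg a) h1
      have e2 := mul_nonneg (sq_nonneg b) h3
      have e3 := mul_nonneg (neg_nonneg.2 h) (sq_nonneg (a - b))
      linarith
  constructor <;> linarith

lemma red_max (v : Fin 4 → ℤ) (hv : ∃ i, v i ≠ 0) : ∃ V : ℕ, 1 ≤ V ∧ (∀ i, |v i| ≤ V) ∧
    ∀ (a : ℤ) (T : ℕ), a ^ 2 * ∑ i, v i ^ 2 ≤ 8 * (T : ℤ) ^ 2 → |a| * V ≤ 3 * T := by
  obtain ⟨k, hk⟩ := Finite.exists_max fun i => (v i).natAbs
  obtain ⟨i, hi⟩ := hv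
  refine ⟨(v k).natAbs, (Int.natAbs_pos.2 hi).trans_le (hk i), fun i => ?_, fun a T h => ?_⟩
  · rw [← Int.natCast_natAbs]
    exact_mod_cast hk i
  · have h1 : v k ^ 2 ≤ ∑ i, v i ^ 2 :=
      single_le_sum (f := fun i => v i ^ 2) (fun i _ => sq_nonneg _) (mem_univ k)
    have h2 := mul_le_mul_of_nonneg_left h1 (sq_nonneg a)
    refine (pow_le_pow_iff_left₀ (by positivity) (by positivity) two_ne_zero).1 ?_
    rw [mul_pow, sq_abs, Int.natCast_natAbs, sq_abs]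
    nlinarith [sq_nonneg (T : ℤ)]

theorem sRed : SRed := by
  rintro r₁ r₂ ⟨i, j, hij⟩ T hT
  classical
  have ex1 : ∃ n : ℕ, ∃ v w, redPair r₁ r₂ v w ∧ (v i * w j - v j * w i).natAbs = n :=
    ⟨_, r₁, r₂, ⟨1, 0, 0, 1, fun k => by simp⟩, rfl⟩
  have ex2 : ∃ n : ℕ, ∃ v w, (redPair r₁ r₂ v w ∧
      (v i * w j - v j * w i).natAbs = Nat.find ex1) ∧ (∑ k, v k ^ 2 + ∑ k, w k ^ 2).natAbs = n := by
    obtain ⟨v, w, h⟩ := Nat.find_spec ex1
    exact ⟨_, v, w, h, rfl⟩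
  obtain ⟨v, w, ⟨hp, hμ⟩, hν⟩ := Nat.find_spec ex2
  have nn : ∀ u : Fin 4 → ℤ, 0 ≤ ∑ k, u k ^ 2 := fun u => sum_nonneg fun k _ => sq_nonneg _
  have hmin : ∀ v' w', redPair r₁ r₂ v' w' → v' i * w' j - v' j * w' i = v i * w j - v j * w i →
      ∑ k, v k ^ 2 + ∑ k, w k ^ 2 ≤ ∑ k, v' k ^ 2 + ∑ k, w' k ^ 2 := by
    intro v' w' h1 h2
    have h3 := Nat.find_min' ex2 ⟨v', w', ⟨h1, by rw [h2, hμ]⟩, rfl⟩
    have := nn v; have := nn w; have := nn v'; have := nn w'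
    omega
  have h0 : v i * w j - v j * w i ≠ 0 := by
    intro h
    obtain ⟨a₁, a₂, b₁, b₂, k⟩ := hp
    apply hij
    rw [(k i).1, (k i).2, (k j).1, (k j).2]
    linear_combination (a₁ * b₂ - a₂ * b₁) * h
  have hprim := red_prim hp h0 fun v' w' h => by
    rw [hμ]
    exact Nat.find_min' ex1 ⟨v', w', h, rfl⟩
  have m1 := hmin v (fun k => w k + v k)
    (red_change hp 1 0 (-1) 1 (fun k => by ring) fun k => by ring) (by ring)
  have m2 := hmin v (fun k => w k - v k)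
    (red_change hp 1 0 1 1 (fun k => by ring) fun k => by ring) (by ring)
  have m3 := hmin (fun k => v k + w k) w
    (red_change hp 1 (-1) 0 1 (fun k => by ring) fun k => by ring) (by ring)
  have m4 := hmin (fun k => v k - w k) w
    (red_change hp 1 1 0 1 (fun k => by ring) fun k => by ring) (by ring)
  obtain ⟨V, hV1, hV2, hV3⟩ := red_max v (by
    by_contra h
    push Not at h
    exact h0 (by rw [h i, h j]; ring))
  obtain ⟨W, hW1, hW2, hW3⟩ := red_max w (by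
    by_contra h
    push Not at h
    exact h0 (by rw [h i, h j]; ring))
  have key : ∀ a b : ℤ, (∀ k, |a * v k + b * w k| ≤ T) → |a| * V ≤ 3 * T ∧ |b| * W ≤ 3 * T := by
    intro a b h
    have q : ∀ k, (a * v k + b * w k) ^ 2 ≤ (T : ℤ) ^ 2 := fun k =>
      sq_le_sq' (abs_le.1 (h k)).1 (abs_le.1 (h k)).2
    have := red_bound (A := ∑ k, v k ^ 2) (B := ∑ k, w k ^ 2) (p := ∑ k, v k * w k) (a := a)
      (b := b) (R := (T : ℤ) ^ 2)
      (by simp only [Fin.sum_univ_four] at m1 ⊢; linarith)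
      (by simp only [Fin.sum_univ_four] at m2 ⊢; linarith)
      (by simp only [Fin.sum_univ_four] at m3 ⊢; linarith)
      (by simp only [Fin.sum_univ_four] at m4 ⊢; linarith)
      (by simp only [Fin.sum_univ_four]; linarith [q 0, q 1, q 2, q 3])
    exact ⟨hV3 a T this.1, hW3 b T this.2⟩
  obtain ⟨a₁, a₂, b₁, b₂, k⟩ := hp
  have k1 := key a₁ a₂ fun l => by rw [← (k l).1]; exact (hT l).1
  have k2 := key b₁ b₂ fun l => by rw [← (k l).2]; exact (hT l).2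
  exact ⟨v, w, a₁, a₂, b₁, b₂, V, W, hprim, k, hV1, hW1, fun l => ⟨hV2 l, hW2 l⟩, k1.1, k1.2,
    k2.1, k2.2⟩

end Pool.Agent.MP_c1891a_nt.H43
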